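import Pool.Agent.Work.MP_12dd5c_an.Transfer

/-!
# A TLIM on `AP(A)` does not imply the invariant subspace property `(F_n^A)`

The definitions are in `Pool/Agent/Work/MP_12dd5c_an/Defs.lean`, the proof is in the other files of
that folder.
-/

set_option autoImplicit false

open Pool.Agent.Work.MP_12dd5c_an

namespace Pool.Agent.Results.MP_12dd5c_an.InvariantSubspaceFails

/-- There is an F-algebra `A` such that `AP(A)`, and even the whole dual `A*`, has a topological
left invariant mean, but `(F_1^A)` fails, for locally convex spaces over `ℝ` and over `ℂ`; the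
conclusion of `(F_1^A)` fails even if one asks in addition that the operators `T_s` are continuous,
that `s ↦ T_s x` is uniformly continuous and that the compact sections `(x + H) ∩ X` are
convex. -/
theorem result : ∃ F : FAlg, (∃ m, IsTLIM F (AP F) m) ∧ (∃ m, IsTLIM F Set.univ m) ∧
    ∀ (𝕜 : Type) [RCLike 𝕜], ¬ PropertyFA F 𝕜 1 ∧ ¬ WeakPropertyFA F 𝕜 1 :=
  ⟨F₁, tlim_AP, tlim_univ, fun _ _ => ⟨not_property₁, not_weak₁⟩⟩

end Pool.Agent.Results.MP_12dd5c_an.InvariantSubspaceFails
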